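import Mathlib
import Pool.Agent.H14.GP.Ga
import Pool.Agent.H14.GP.Gb

/-!
# Row HFGa (90 lines): orthonormality of the coefficients `a_n` (helper68)

`EG_aLaR`: for `c ^ 2 = 1` and `a < M`: `EG (sM M) (aL c a * aR c b) = δ_{ab}`.
PROOF. Put `e a b = EG (sM M) (aL c a * aR c b)` and `s = sM M`, so `j * s j = 1` for `1 ≤ j < M`.
(1) `a = 0`, `b = b' + 1`: `aL c 0 = 1` (`cf_zero`); by `newton`
`(b' + 1) * EG (aR c (b'+1)) = c * ∑_{j < b'+1} (j+1) * EG (X (inr (j+1)) * aR c (b' - j))` and by `stein_r`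
each term is `s (j+1) * EG (pderiv (inl (j+1)) (aR ..)) = 0` (`pderiv_inl_aR`).  `a = b = 0`: `EG_one`.
(2) `a = a' + 1 < M`: by `newton` for `aL` (multiply by `aR c b`, linearity, `smul_mul_assoc`)
`(a' + 1) * e (a'+1) b = c * ∑_{j < a'+1} (j+1) * EG (X (inl (j+1)) * (aL c (a' - j) * aR c b))`, by `stein_l`
`EG (X (inl (j+1)) * Q) = s (j+1) * EG (pderiv (inr (j+1)) Q)`, with `pderiv (inr (j+1)) (aL * aR) = aL * pderiv aR`
(`Derivation.leibniz` / `pderiv_mul`, `pderiv_inr_aL`), `pderiv_aR`: `c • aR c (b - (j+1))` if `j + 1 ≤ b`, else `0`.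
Since `(j+1) * s (j+1) = 1` (because `j + 1 ≤ a' + 1 < M`):
`(a' + 1) * e (a'+1) b = c^2 * ∑_{j < a'+1} if j + 1 ≤ b then e (a' - j) (b - (j+1)) else 0`.
Strong induction on `a`: the term is `1` if `a' - j = b - (j+1)` i.e. `a' + 1 = b`, and `0` otherwise. If `a' + 1 = b` all
`a' + 1` terms are `1` (`j + 1 ≤ b` holds), so `e = 1`; if `a' + 1 ≠ b` all vanish (for `j + 1 ≤ b`,
`a' - j = b - (j+1)` would give `a' + 1 = b`, as `j ≤ a'`), so `e = 0`.
-/

open MvPolynomial

namespace Pool.Agent.H14.GP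

private lemma hfga_zero (c : ℝ) (M b : ℕ) :
    EG (sM M) (aL c 0 * aR c b) = if 0 = b then 1 else 0 := by
  have h0 : aL c 0 = 1 := cf_zero c _
  rw [h0, one_mul]
  cases b with
  | zero =>
    have h1 : aR c 0 = 1 := cf_zero c _
    rw [h1, EG_one, if_pos rfl]
  | succ b' =>
    rw [if_neg (by omega)]
    have h1 := newton c (fun j => (X (Sum.inr j) : PP)) b'
    have h2 := congrArg (EG (sM M)) h1
    rw [map_smul, map_smul, map_sum] at h2
    have h3 : ∀ j ∈ Finset.range (b' + 1), EG (sM M) (((j : ℝ) + 1) •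
        ((fun j => (X (Sum.inr j) : PP)) (j + 1) * cf c (fun j => (X (Sum.inr j) : PP)) (b' - j))) =
        0 := by
      intro j _
      rw [map_smul]
      have h4 := stein_r (sM M) (j + 1) (aR c (b' - j))
      rw [pderiv_inl_aR, map_zero, mul_zero] at h4
      have h5 : EG (sM M) ((fun j => (X (Sum.inr j) : PP)) (j + 1) *
          cf c (fun j => (X (Sum.inr j) : PP)) (b' - j)) = 0 := h4
      rw [h5, smul_zero]
    rw [Finset.sum_eq_zero h3, smul_zero, smul_eq_mul] at h2
    have h6 : ((b' : ℝ) + 1) ≠ 0 := by positivity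
    exact (mul_eq_zero.1 h2).resolve_left h6

private lemma hfga_step {c : ℝ} {M a : ℕ} (b : ℕ) (ha : a + 1 < M) :
    ((a : ℝ) + 1) * EG (sM M) (aL c (a + 1) * aR c b) =
      c ^ 2 * ∑ j ∈ Finset.range (a + 1), if j + 1 ≤ b then
        EG (sM M) (aL c (a - j) * aR c (b - (j + 1))) else 0 := by
  have h1 := newton c (fun j => (X (Sum.inl j) : PP)) a
  have h2 := congrArg (fun P : PP => EG (sM M) (P * aR c b)) h1
  rw [smul_mul_assoc, map_smul, smul_mul_assoc, map_smul, Finset.sum_mul, map_sum, smul_eq_mul,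
    smul_eq_mul] at h2
  have h3 : EG (sM M) (aL c (a + 1) * aR c b) =
      EG (sM M) (cf c (fun j => (X (Sum.inl j) : PP)) (a + 1) * aR c b) := rfl
  rw [h3, h2, pow_two, mul_assoc]
  congr 1
  rw [Finset.mul_sum]
  refine Finset.sum_congr rfl ?_
  intro j hj
  rw [Finset.mem_range] at hj
  have h4 : (((j : ℝ) + 1) • ((X (Sum.inl (j + 1)) : PP) *
      cf c (fun j => (X (Sum.inl j) : PP)) (a - j))) * aR c b =
      ((j : ℝ) + 1) • ((X (Sum.inl (j + 1)) : PP) * (aL c (a - j) * aR c b)) := by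
    rw [smul_mul_assoc, mul_assoc]
    rfl
  rw [h4, map_smul, stein_l, smul_eq_mul, pderiv_mul, pderiv_inr_aL, zero_mul, zero_add, pderiv_aR]
  have h5 : ((j : ℝ) + 1) * sM M (j + 1) = 1 := by
    unfold sM
    rw [if_pos ⟨by omega, by omega⟩]
    push_cast
    have : ((j : ℝ) + 1) ≠ 0 := by positivity
    field_simp
  rw [← mul_assoc, h5, one_mul]
  by_cases h6 : j + 1 ≤ b
  · rw [if_pos ⟨by omega, h6⟩, if_pos h6, mul_smul_comm, map_smul, smul_eq_mul]
  · rw [if_neg (fun h => h6 h.2), if_neg h6, mul_zero, map_zero, mul_zero]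

theorem EG_aLaR {c : ℝ} (hc : c ^ 2 = 1) {M a : ℕ} (b : ℕ) (ha : a < M) :
    EG (sM M) (aL c a * aR c b) = if a = b then 1 else 0 := by
  induction a using Nat.strong_induction_on generalizing b with
  | _ a ih =>
  rcases Nat.eq_zero_or_pos a with h0 | h0
  · subst h0
    exact hfga_zero c M b
  · obtain ⟨a', rfl⟩ : ∃ a', a = a' + 1 := ⟨a - 1, by omega⟩
    have h1 := hfga_step (c := c) b ha
    rw [hc, one_mul] at h1
    have h6 : ((a' : ℝ) + 1) ≠ 0 := by positivity
    by_cases h2 : a' + 1 = b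
    · rw [if_pos h2]
      have h3 : ∑ j ∈ Finset.range (a' + 1), (if j + 1 ≤ b then
          EG (sM M) (aL c (a' - j) * aR c (b - (j + 1))) else 0) =
          ∑ j ∈ Finset.range (a' + 1), (1 : ℝ) := by
        refine Finset.sum_congr rfl ?_
        intro j hj
        rw [Finset.mem_range] at hj
        rw [if_pos (by omega), ih (a' - j) (by omega) _ (by omega), if_pos (by omega)]
      rw [h3, Finset.sum_const, Finset.card_range, nsmul_eq_mul, mul_one] at h1
      push_cast at h1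
      apply mul_left_cancel₀ h6
      rw [h1, mul_one]
    · rw [if_neg h2]
      have h3 : ∑ j ∈ Finset.range (a' + 1), (if j + 1 ≤ b then
          EG (sM M) (aL c (a' - j) * aR c (b - (j + 1))) else 0) = 0 := by
        refine Finset.sum_eq_zero ?_
        intro j hj
        rw [Finset.mem_range] at hj
        split_ifs with h4
        · rw [ih (a' - j) (by omega) _ (by omega), if_neg (by omega)]
        · rfl
      rw [h3] at h1
      exact (mul_eq_zero.1 h1).resolve_left h6

end Pool.Agent.H14.GP
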