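import Mathlib
import Pool.Agent.H68.HF.Ga

/-!
# Row HFGb (120 lines): `DK` on the antiholomorphic coefficients (helper68)

`Kp M κ = ∑_{j<M} κ_j X^j` (a real polynomial), `cv c F n = ∑_{i+m=n} F_i • aR c m`.

`DK_aL_mul`: `DK M κ (aL c a * Q) = aL c a * DK M κ Q`, because `pderiv (inr j) (aL c a) = 0` (`pderiv_inr_aL`,
`Derivation.leibniz`/`pderiv_mul`; `DK` is `∑ κ_j • pderiv (inr j)`; `mul_smul_comm`, `Finset.mul_sum`).
`DK_add`, `DK_sum`, `DK_smul`: linearity (`map_add`, `map_sum`, `Derivation.map_smul`, `Finset.sum_add_distrib`, `Finset.sum_comm`, `Finset.smul_sum`, `smul_comm`).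
`DK_aR`: for `κ 0 = 0`: `DK M κ (aR c n) = cv c (C c * Kp M κ) n`.
PROOF. `pderiv_aR`: left `= ∑_{j<M} κ_j • (if 1 ≤ j ∧ j ≤ n then c • aR c (n-j) else 0)`. Right (antidiagonal as a range:
`Finset.Nat.sum_antidiagonal_eq_sum_range_succ_mk` or `Finset.Nat.sum_antidiagonal_eq_sum_range_succ`):
`∑_{i<n+1} (c * (Kp M κ).coeff i) • aR c (n-i)`, `(Kp M κ).coeff i = if i < M then κ i else 0` (lemma `Kp_coeff`). Both sums equal
the sum over `i` in `range (max M (n+1))` with the condition `i < M ∧ i ≤ n` (the term `i = 0` vanishes because `κ 0 = 0`).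
`DK_cv`: `DK M κ (cv c F n) = cv c (C c * Kp M κ * F) n`.
PROOF. `DK_sum`, `DK_smul`, `DK_aR`: left `= ∑_{(i,m)} F_i • ∑_{(k,l), k+l=m} (C c * K)_k • aR c l`; right
`= ∑_{(u,l), u+l=n} ((C c * K) * F)_u • aR c l` with `coeff_mul`: `∑_{k+i=u} (C c * K)_k F_i`. Both are the sum over all
triples `k + i + l = n`: `Finset.sum_antidiagonal_... ` (`Finset.Nat.sum_antidiagonal_triple_comm`-type lemma
`Finset.sum_nat_antidiagonal_triple...` or `Finset.Nat.antidiagonal... sum_sigma'`). Alternative avoiding triples: in the power series ring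
`PowerSeries PP` put `A = PowerSeries.mk (aR c)` and note `cv c F n = coeff n ((F : PowerSeries, coefficients mapped to PP by C) * A)`
(`PowerSeries.coeff_mul`); then the claim is associativity and commutativity of multiplication.
-/

open MvPolynomial

namespace Pool.Agent.H14.GP

/-- `∑_{j<M} κ_j X^j` -/
noncomputable def Kp (M : ℕ) (κ : ℕ → ℝ) : Polynomial ℝ := ∑ j ∈ Finset.range M, Polynomial.C (κ j) * Polynomial.X ^ j

/-- `∑_{i+m=n} F_i • aR c m` -/
noncomputable def cv (c : ℝ) (F : Polynomial ℝ) (n : ℕ) : PP :=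
  ∑ x ∈ Finset.HasAntidiagonal.antidiagonal n, F.coeff x.1 • aR c x.2

lemma Kp_coeff (M : ℕ) (κ : ℕ → ℝ) (i : ℕ) : (Kp M κ).coeff i = if i < M then κ i else 0 := by
  unfold Kp
  rw [Polynomial.finsetSum_coeff]
  simp only [Polynomial.coeff_C_mul_X_pow]
  rw [Finset.sum_ite_eq]
  simp only [Finset.mem_range]

lemma cv_one (c : ℝ) (n : ℕ) : cv c 1 n = aR c n := by
  unfold cv
  rw [Finset.sum_eq_single (0, n)]
  · simp
  · rintro ⟨a, b⟩ hab hne
    have ha : a ≠ 0 := by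
      rintro rfl
      apply hne
      rw [Finset.HasAntidiagonal.mem_antidiagonal] at hab
      simp only [zero_add] at hab
      rw [hab]
    rw [Polynomial.coeff_one, if_neg ha, zero_smul]
  · intro h
    exact absurd (Finset.HasAntidiagonal.mem_antidiagonal.2 (zero_add n)) h

/-- `DK` is a linear map. -/
lemma Gb_lin (M : ℕ) (κ : ℕ → ℝ) (P : PP) : DK M κ P =
    (∑ j ∈ Finset.range M, κ j • ((pderiv (Sum.inr j) : Derivation ℝ PP PP) : PP →ₗ[ℝ] PP)) P := by
  unfold DK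
  rw [LinearMap.sum_apply]
  rfl

lemma DK_add (M : ℕ) (κ : ℕ → ℝ) (P Q : PP) : DK M κ (P + Q) = DK M κ P + DK M κ Q := by
  rw [Gb_lin, Gb_lin, Gb_lin, map_add]

lemma DK_sum (M : ℕ) (κ : ℕ → ℝ) {ι : Type*} (s : Finset ι) (P : ι → PP) :
    DK M κ (∑ i ∈ s, P i) = ∑ i ∈ s, DK M κ (P i) := by
  simp only [Gb_lin]
  exact map_sum _ _ _

lemma DK_smul (M : ℕ) (κ : ℕ → ℝ) (r : ℝ) (P : PP) : DK M κ (r • P) = r • DK M κ P := by
  rw [Gb_lin, Gb_lin, map_smul]

theorem DK_aL_mul (M : ℕ) (κ : ℕ → ℝ) (c : ℝ) (a : ℕ) (Q : PP) :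
    DK M κ (aL c a * Q) = aL c a * DK M κ Q := by
  unfold DK
  rw [Finset.mul_sum]
  refine Finset.sum_congr rfl fun j _ => ?_
  rw [pderiv_mul, pderiv_inr_aL, zero_mul, zero_add, mul_smul_comm]

theorem DK_aR (M : ℕ) {κ : ℕ → ℝ} (h0 : κ 0 = 0) (c : ℝ) (n : ℕ) :
    DK M κ (aR c n) = cv c (Polynomial.C c * Kp M κ) n := by
  have hR : cv c (Polynomial.C c * Kp M κ) n = ∑ k ∈ Finset.range (max M (n + 1)),
      if k < M ∧ k ≤ n then (c * κ k) • aR c (n - k) else 0 := by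
    unfold cv
    rw [Finset.Nat.sum_antidiagonal_eq_sum_range_succ_mk]
    rw [← Finset.sum_subset (Finset.range_mono (le_max_right M (n + 1)))]
    · refine Finset.sum_congr rfl fun k hk => ?_
      have hk' : k ≤ n := Nat.lt_succ_iff.1 (Finset.mem_range.1 hk)
      show (Polynomial.C c * Kp M κ).coeff k • aR c (n - k) = _
      rw [Polynomial.coeff_C_mul, Kp_coeff]
      by_cases h : k < M
      · rw [if_pos h, if_pos ⟨h, hk'⟩]
      · rw [if_neg h, if_neg (fun h' => h h'.1), mul_zero, zero_smul]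
    · intro k _ hk
      rw [Finset.mem_range, not_lt] at hk
      rw [if_neg]
      rintro ⟨-, h⟩
      omega
  have hL : DK M κ (aR c n) = ∑ k ∈ Finset.range (max M (n + 1)),
      if k < M ∧ k ≤ n then (c * κ k) • aR c (n - k) else 0 := by
    unfold DK
    rw [← Finset.sum_subset (Finset.range_mono (le_max_left M (n + 1)))]
    · refine Finset.sum_congr rfl fun k hk => ?_
      have hk' := Finset.mem_range.1 hk
      rw [pderiv_aR]
      rcases Nat.eq_zero_or_pos k with rfl | hpos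
      · rw [h0, zero_smul, mul_zero]
        simp
      · by_cases h : k ≤ n
        · rw [if_pos ⟨hpos, h⟩, if_pos ⟨hk', h⟩, smul_smul, mul_comm]
        · rw [if_neg (fun h' => h h'.2), if_neg (fun h' => h h'.2), smul_zero]
    · intro k _ hk
      rw [Finset.mem_range, not_lt] at hk
      rw [if_neg]
      rintro ⟨h, -⟩
      omega
  rw [hL, hR]

/-- the power series with the coefficients of a polynomial -/
noncomputable def Gb_ser (F : Polynomial ℝ) : PowerSeries PP :=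
  PowerSeries.mk fun i => algebraMap ℝ PP (F.coeff i)

lemma Gb_cv (c : ℝ) (F : Polynomial ℝ) (n : ℕ) :
    cv c F n = PowerSeries.coeff n (Gb_ser F * PowerSeries.mk (aR c)) := by
  unfold cv Gb_ser
  rw [PowerSeries.coeff_mul]
  refine Finset.sum_congr rfl fun x _ => ?_
  rw [PowerSeries.coeff_mk, PowerSeries.coeff_mk, Algebra.smul_def]

lemma Gb_ser_mul (F G : Polynomial ℝ) : Gb_ser (F * G) = Gb_ser F * Gb_ser G := by
  ext1 n
  unfold Gb_ser
  rw [PowerSeries.coeff_mul, PowerSeries.coeff_mk, Polynomial.coeff_mul, map_sum]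
  refine Finset.sum_congr rfl fun x _ => ?_
  rw [PowerSeries.coeff_mk, PowerSeries.coeff_mk, map_mul]

lemma Gb_cv_cv (c : ℝ) (F G : Polynomial ℝ) (n : ℕ) :
    ∑ x ∈ Finset.HasAntidiagonal.antidiagonal n, F.coeff x.1 • cv c G x.2 = cv c (G * F) n := by
  rw [Gb_cv, Gb_ser_mul, mul_comm (Gb_ser G) (Gb_ser F), mul_assoc, PowerSeries.coeff_mul]
  refine Finset.sum_congr rfl fun x _ => ?_
  rw [Gb_cv, Algebra.smul_def]
  congr 1
  unfold Gb_ser
  rw [PowerSeries.coeff_mk]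

theorem DK_cv (M : ℕ) {κ : ℕ → ℝ} (h0 : κ 0 = 0) (c : ℝ) (F : Polynomial ℝ) (n : ℕ) :
    DK M κ (cv c F n) = cv c (Polynomial.C c * Kp M κ * F) n := by
  have h1 : DK M κ (cv c F n) = ∑ x ∈ Finset.HasAntidiagonal.antidiagonal n,
      F.coeff x.1 • cv c (Polynomial.C c * Kp M κ) x.2 := by
    show DK M κ (∑ x ∈ Finset.HasAntidiagonal.antidiagonal n, F.coeff x.1 • aR c x.2) = _
    rw [DK_sum]
    refine Finset.sum_congr rfl fun x _ => ?_
    rw [DK_smul, DK_aR M h0]
  rw [h1, Gb_cv_cv]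

end Pool.Agent.H14.GP
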