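import Mathlib
import Pool.Agent.H68.HF.Gb

/-!
# Row HFGd (80 lines): the Gaussian mean `E[P^j h_k conj h_m]` (helper68)

`EG_aL_cv`: for `c ^ 2 = 1`, `k < M`: `EG (sM M) (aL c k * cv c F m) = if k ≤ m then F.coeff (m - k) else 0`.
PROOF. `cv`, `Finset.mul_sum`, `mul_smul_comm`, `map_sum`, `map_smul`, `EG_aLaR`: the sum over the antidiagonal of `m` of
`F.coeff x.1 * (if k = x.2 then 1 else 0)`; if `k ≤ m` exactly the pair `(m - k, k)` contributes (`Finset.sum_eq_single`), otherwise none.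
`DK_iter`: `(DK M κ)^[j] (aL c k * aR c m) = aL c k * cv c ((C c * Kp M κ) ^ j) m` (`κ 0 = 0`).
PROOF. Induction on `j` (`Function.iterate_succ_apply'`): `DK_aL_mul`, `DK_cv`, `pow_succ'`; `j = 0`: `cv_one`.
`DK_iter_add`, `DK_iter_sum`, `DK_iter_smul`: linearity of the iterates, by induction (`DK_add`, `DK_sum`, `DK_smul`).
`EG_main`: the three combined.
`KpC_pow`: `((-K) ^ j).coeff i` over `ℝ` cast to `ℂ` is `((-(K.map ofReal)) ^ j).coeff i` (`Polynomial.coeff_map`, `Polynomial.map_pow`, `map_neg`).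
-/

open MvPolynomial

namespace Pool.Agent.H14.GP

theorem EG_aL_cv {c : ℝ} (hc : c ^ 2 = 1) {M k : ℕ} (hk : k < M) (m : ℕ) (F : Polynomial ℝ) :
    EG (sM M) (aL c k * cv c F m) = if k ≤ m then F.coeff (m - k) else 0 := by
  have h1 : ∀ x ∈ Finset.HasAntidiagonal.antidiagonal m,
      EG (sM M) (aL c k * (F.coeff x.1 • aR c x.2)) = F.coeff x.1 * (if k = x.2 then 1 else 0) := by
    intro x _
    rw [mul_smul_comm, map_smul, smul_eq_mul, EG_aLaR hc x.2 hk]
  unfold cv
  rw [Finset.mul_sum, map_sum, Finset.sum_congr rfl h1]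
  by_cases h : k ≤ m
  · rw [if_pos h, Finset.sum_eq_single (m - k, k)]
    · simp
    · rintro ⟨a, b⟩ hab hne
      rw [Finset.HasAntidiagonal.mem_antidiagonal] at hab
      have hab' : a + b = m := hab
      have hb : ¬ k = b := by
        rintro rfl
        apply hne
        rw [Prod.mk.injEq]
        exact ⟨by omega, rfl⟩
      show F.coeff a * (if k = b then 1 else 0) = 0
      rw [if_neg hb, mul_zero]
    · intro h2
      exfalso
      apply h2
      rw [Finset.HasAntidiagonal.mem_antidiagonal]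
      show m - k + k = m
      omega
  · rw [if_neg h]
    apply Finset.sum_eq_zero
    rintro ⟨a, b⟩ hab
    rw [Finset.HasAntidiagonal.mem_antidiagonal] at hab
    have hab' : a + b = m := hab
    have hb : ¬ k = b := by
      rintro rfl
      omega
    show F.coeff a * (if k = b then 1 else 0) = 0
    rw [if_neg hb, mul_zero]

theorem DK_iter (M : ℕ) {κ : ℕ → ℝ} (h0 : κ 0 = 0) (c : ℝ) (k m j : ℕ) :
    (DK M κ)^[j] (aL c k * aR c m) = aL c k * cv c ((Polynomial.C c * Kp M κ) ^ j) m := by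
  induction j with
  | zero => rw [Function.iterate_zero, id_eq, pow_zero, cv_one]
  | succ j ih => rw [Function.iterate_succ_apply', ih, DK_aL_mul, DK_cv M h0, pow_succ']

theorem DK_iter_sum (M : ℕ) (κ : ℕ → ℝ) (j : ℕ) {ι : Type*} (s : Finset ι) (P : ι → PP) :
    (DK M κ)^[j] (∑ i ∈ s, P i) = ∑ i ∈ s, (DK M κ)^[j] (P i) := by
  induction j with
  | zero => rfl
  | succ j ih =>
    rw [Function.iterate_succ_apply', ih, DK_sum]
    refine Finset.sum_congr rfl fun i _ => ?_
    rw [Function.iterate_succ_apply']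

theorem DK_iter_smul (M : ℕ) (κ : ℕ → ℝ) (j : ℕ) (r : ℝ) (P : PP) :
    (DK M κ)^[j] (r • P) = r • (DK M κ)^[j] P := by
  induction j with
  | zero => rfl
  | succ j ih => rw [Function.iterate_succ_apply', ih, DK_smul, Function.iterate_succ_apply']

theorem EG_main {c : ℝ} (hc : c ^ 2 = 1) {M k : ℕ} (hk : k < M) (m j : ℕ) {κ : ℕ → ℝ} (h0 : κ 0 = 0) :
    EG (sM M) ((DK M κ)^[j] (aL c k * aR c m)) =
      if k ≤ m then ((Polynomial.C c * Kp M κ) ^ j).coeff (m - k) else 0 := by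
  rw [DK_iter M h0, EG_aL_cv hc hk]

theorem KpC_pow (M : ℕ) (κ : ℕ → ℝ) (j i : ℕ) :
    ((((Polynomial.C (-1) * Kp M κ) ^ j).coeff i : ℝ) : ℂ) =
      ((-((Kp M κ).map Complex.ofRealHom)) ^ j).coeff i := by
  have h1 : (Polynomial.C (-1) * Kp M κ : Polynomial ℝ) = -Kp M κ := by
    rw [map_neg, map_one, neg_one_mul]
  rw [h1, ← Polynomial.map_neg, ← Polynomial.map_pow, Polynomial.coeff_map]
  rfl

end Pool.Agent.H14.GP
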