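import Mathlib
import Pool.Agent.H67.HF.Defs2
import Pool.Agent.H24.HF.Nf
import Pool.Agent.H68.HF.Gd
import Pool.Agent.H14.GP.Va
import Pool.Agent.H14.GP.Vb
import Pool.Agent.H14.GP.Ra

/-!
# MP_103a5c_HF: the mean values `mean_P`, `mean_V`, `mean_C` (helper68)
-/

open MeasureTheory Set Filter Topology
open scoped Real ContDiff ComplexConjugate

namespace Pool.Agent.H68.HF

open Pool.Agent Pool.Agent.H6 Pool.Agent.H14.GP Pool.Agent.H24.HF Pool.Agent.H67.HF

lemma continuous_Gd {χ : ℝ → ℝ} {D : ℝ} (hW : Win2 χ D) (δ : ℝ) : Continuous (Gd χ δ) := by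
  unfold Gd hd
  have h1 : Continuous χ := hW.smooth.continuous
  have h2 : Continuous (fun u : ℝ => Real.sinc (π * δ * u)) :=
    Real.continuous_sinc.comp (continuous_const.mul continuous_id)
  exact continuous_id.mul (h1.mul (continuous_const.mul h2))

lemma Gd_le {χ : ℝ → ℝ} {D : ℝ} (hW : Win2 χ D) (δ : ℝ) (u : ℝ) : |Gd χ δ u| ≤ D * |δ| := by
  have hD : 0 ≤ D := by linarith [hW.D_pos]
  unfold Gd hd
  by_cases h : D ≤ |u|
  · rw [hW.supp u h, zero_mul, mul_zero, abs_zero]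
    positivity
  · have h1 : |u| ≤ D := (not_le.mp h).le
    rw [abs_mul, abs_mul, abs_mul]
    have h2 : |χ u| ≤ 1 := by rw [abs_of_nonneg (hW.nonneg u)]; exact hW.le_one u
    have h3 : |Real.sinc (π * δ * u)| ≤ 1 := Real.abs_sinc_le_one _
    calc |u| * (|χ u| * (|δ| * |Real.sinc (π * δ * u)|)) ≤ D * (1 * (|δ| * 1)) := by
          gcongr
      _ = D * |δ| := by ring

lemma hh_eq (Gc : ℕ → ℝ → ℝ) (T t : ℝ) (k : ℕ) : hh Gc T t k = evP Gc T t (aL (-1) k) := by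
  unfold aL
  rw [cf_map]
  unfold hh
  congr 1
  funext j
  unfold evP
  rw [MvPolynomial.aeval_X]
  rfl

lemma hh_conj (Gc : ℕ → ℝ → ℝ) (T t : ℝ) (k : ℕ) : conj (hh Gc T t k) = evP Gc T t (aR (-1) k) := by
  rw [hh_eq, evP_aL]

lemma kp_zero {M : ℕ} {θ : ℝ} {Gc : ℕ → ℝ → ℝ} (hG : Cells1 M θ Gc) (H : ℝ → ℝ) : kp Gc H 0 = 0 := by
  unfold kp
  have h : ∀ x, Gc 0 x = 0 := hG.out 0 (Or.inl (by norm_num))
  simp [h]

/-- comparison of the polynomial `Kp` and the power series `kaps` -/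
lemma coeff_kaps {M : ℕ} {θ : ℝ} {Gc : ℕ → ℝ → ℝ} (hG : Cells1 M θ Gc) (G : ℝ → ℝ) :
    kaps G Gc = ((Kp M (kp Gc G) : Polynomial ℝ) : PowerSeries ℝ) := by
  ext i
  unfold kaps
  rw [PowerSeries.coeff_mk, Polynomial.coeff_coe, Kp_coeff]
  by_cases h : i < M
  · rw [if_pos h]
  · rw [if_neg h]
    unfold kp
    have h2 : ∀ x, Gc i x = 0 := hG.out i (Or.inr (not_lt.mp h))
    simp [h2]

theorem mean_P {v : ℝ → ℝ} (hv : Wgt v) {M : ℕ} {θ : ℝ} {Gc : ℕ → ℝ → ℝ} (hG : Cells1 M θ Gc)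
    {χ : ℝ → ℝ} {D δ : ℝ} (hW : Win2 χ D) (hδ : 0 < δ) (j k m : ℕ) (hk : k < M) (hm : m < M) :
    Tendsto (fun T => EC v T (fun t => PP1 χ δ D T t ^ j * (hh Gc T t k * conj (hh Gc T t m)))) atTop
      (𝓝 (((∫ x, v x) * LamP (kaps (Gd χ δ) Gc) j k m : ℝ) : ℂ)) := by
  have hM : (0 : ℝ) < M := by
    have h2 : 0 < M := by omega
    exact_mod_cast h2
  have h1 := transferPow hv hG hW.D_pos (continuous_Gd hW δ) (Gd_le hW δ) j
    (P := aL (-1) k * aR (-1) m) (N := k + 0) (N' := 0 + m) ((deg_aL (-1) k).mul (deg_aR (-1) m)) (by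
      rw [zero_add, div_lt_one hM]
      have h3 : (m : ℝ) ≤ M := by exact_mod_cast hm.le
      have h4 : θ * m ≤ θ * M := mul_le_mul_of_nonneg_left h3 hG.θ_pos.le
      have h5 : θ * M < 1 * M := mul_lt_mul_of_pos_right hG.θ_lt hM
      linarith)
  have h2 : EG (sM M) ((DK M (kp Gc (Gd χ δ)))^[j] (aL (-1) k * aR (-1) m)) = LamP (kaps (Gd χ δ) Gc) j k m := by
    rw [EG_main (by norm_num) hk m j (kp_zero hG _)]
    unfold LamP
    by_cases hkm : k ≤ m
    · rw [if_pos hkm, if_pos hkm, coeff_kaps hG]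
      have e : (-((Kp M (kp Gc (Gd χ δ)) : Polynomial ℝ) : PowerSeries ℝ)) ^ j =
          (((Polynomial.C (-1) * Kp M (kp Gc (Gd χ δ))) ^ j : Polynomial ℝ) : PowerSeries ℝ) := by
        rw [Polynomial.coe_pow, Polynomial.coe_mul, Polynomial.coe_C]
        congr 1
        rw [map_neg, map_one, neg_one_mul]
      rw [e, Polynomial.coeff_coe]
    · rw [if_neg hkm, if_neg hkm]
  rw [h2] at h1
  refine h1.congr fun T => ?_
  congr 1
  funext t
  rw [map_mul, ← hh_eq, ← hh_conj]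
  unfold PP1
  ring

lemma continuous_hh (Gc : ℕ → ℝ → ℝ) (T : ℝ) (k : ℕ) : Continuous (fun t => hh Gc T t k) := by
  induction k using Nat.strong_induction_on with
  | _ k ih =>
    cases k with
    | zero =>
      unfold hh
      simp only [cf_zero]
      exact continuous_const
    | succ k =>
      have e : (fun t => hh Gc T t (k + 1)) = fun t => ((1 / ((k : ℝ) + 1) * (-1) : ℝ) : ℂ) *
          ∑ j ∈ Finset.range (k + 1), (((j : ℝ) + 1 : ℝ) : ℂ) * (ev t (bb (Gc (j + 1)) T) * hh Gc T t (k - j)) := by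
        funext t
        have h := newton (-1 : ℝ) (fun j => ev t (bb (Gc j) T)) k
        have h3 : ((k : ℝ) + 1) ≠ 0 := by positivity
        have h2 : hh Gc T t (k + 1) = (1 / ((k : ℝ) + 1)) • (((k : ℝ) + 1) • hh Gc T t (k + 1)) := by
          rw [smul_smul, one_div, inv_mul_cancel₀ h3, one_smul]
        rw [h2]
        unfold hh
        rw [h, smul_smul, Complex.real_smul]
        simp only [Complex.real_smul]
      rw [e]
      refine continuous_const.mul (continuous_finsetSum _ fun j hj => ?_)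
      exact continuous_const.mul ((continuous_ev _).mul (ih (k - j) (by omega)))

lemma continuous_PP1 (χ : ℝ → ℝ) (δ D T : ℝ) : Continuous (fun t => PP1 χ δ D T t) := continuous_ev _

lemma continuous_CC (β : ℝ) (M : ℕ) (Gc : ℕ → ℝ → ℝ) (T : ℝ) : Continuous (fun t => CC β M Gc T t) :=
  continuous_finsetSum _ fun k _ => continuous_const.mul (continuous_hh Gc T k)

/-- the phase of `e^{-iβk} · conj (e^{-iβm})` -/
lemma phase (β : ℝ) {k m : ℕ} (h : k ≤ m) :
    Complex.exp (-((β * k : ℝ) : ℂ) * Complex.I) * conj (Complex.exp (-((β * m : ℝ) : ℂ) * Complex.I)) =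
      Complex.exp (((β * ((m - k : ℕ) : ℝ) : ℝ) : ℂ) * Complex.I) := by
  rw [← Complex.exp_conj, ← Complex.exp_add]
  congr 1
  rw [map_mul, map_neg, Complex.conj_ofReal, Complex.conj_I, Nat.cast_sub h]
  push_cast
  ring

/-- the binomial expansion of `V_n(δ - 2P)` -/
lemma Vn_expand (n : ℕ) (δ : ℝ) (P : ℂ) : Vn n (δ - 2 * P) =
    ∑ j ∈ Finset.range (n + 1), ((n.choose j : ℂ) * (1 + (π : ℂ) * Complex.I * ((δ : ℂ) - 1 / 2) / (n : ℂ)) ^ (n - j) *
      (-(2 * ((π : ℂ) * Complex.I / (n : ℂ)))) ^ j) * P ^ j := by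
  unfold Vn
  have e : (1 + (π : ℂ) * Complex.I * ((δ : ℂ) - 2 * P - 1 / 2) / (n : ℂ)) =
      (-(2 * ((π : ℂ) * Complex.I / (n : ℂ)))) * P + (1 + (π : ℂ) * Complex.I * ((δ : ℂ) - 1 / 2) / (n : ℂ)) := by
    ring
  rw [e, add_pow]
  refine Finset.sum_congr rfl fun j _ => ?_
  rw [mul_pow]
  ring

/-- the same expansion for the power series -/
lemma Vps_coeff (n : ℕ) (δ : ℝ) (κ : PowerSeries ℝ) (i : ℕ) : PowerSeries.coeff i (Vps n δ κ) =
    ∑ j ∈ Finset.range (n + 1), ((n.choose j : ℂ) * (1 + (π : ℂ) * Complex.I * ((δ : ℂ) - 1 / 2) / (n : ℂ)) ^ (n - j) *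
      (-(2 * ((π : ℂ) * Complex.I / (n : ℂ)))) ^ j) * ((PowerSeries.coeff i ((-κ) ^ j) : ℝ) : ℂ) := by
  have e : Vps n δ κ = (PowerSeries.C (-(2 * ((π : ℂ) * Complex.I / (n : ℂ)))) * (-κ).map (algebraMap ℝ ℂ) +
      PowerSeries.C (1 + (π : ℂ) * Complex.I * ((δ : ℂ) - 1 / 2) / (n : ℂ))) ^ n := by
    unfold Vps
    congr 1
    rw [map_neg (PowerSeries.map (algebraMap ℝ ℂ)), map_neg PowerSeries.C, map_mul PowerSeries.C, map_add PowerSeries.C, map_one]
    have e1 : (π : ℂ) * Complex.I * ((δ : ℂ) - 1 / 2) / (n : ℂ) = ((π : ℂ) * Complex.I / (n : ℂ)) * ((δ - 1 / 2 : ℝ) : ℂ) := by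
      push_cast
      ring
    rw [e1, map_mul PowerSeries.C]
    have e2 : PowerSeries.C (2 : ℂ) = 2 := by
      rw [map_ofNat]
    rw [e2]
    ring
  rw [e, add_pow, map_sum]
  refine Finset.sum_congr rfl fun j _ => ?_
  have e3 : (PowerSeries.C (-(2 * ((π : ℂ) * Complex.I / (n : ℂ)))) * (-κ).map (algebraMap ℝ ℂ)) ^ j *
      PowerSeries.C (1 + (π : ℂ) * Complex.I * ((δ : ℂ) - 1 / 2) / (n : ℂ)) ^ (n - j) * ((n.choose j : ℕ) : PowerSeries ℂ) =
      PowerSeries.C ((n.choose j : ℂ) * (1 + (π : ℂ) * Complex.I * ((δ : ℂ) - 1 / 2) / (n : ℂ)) ^ (n - j) *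
      (-(2 * ((π : ℂ) * Complex.I / (n : ℂ)))) ^ j) * ((-κ) ^ j).map (algebraMap ℝ ℂ) := by
    rw [mul_pow, ← map_pow, ← map_pow (PowerSeries.map _), map_mul PowerSeries.C, map_mul PowerSeries.C, map_pow PowerSeries.C,
      map_natCast PowerSeries.C, map_pow PowerSeries.C]
    ring
  rw [e3, PowerSeries.coeff_C_mul, PowerSeries.coeff_map]
  rfl

theorem mean_V {v : ℝ → ℝ} (hv : Wgt v) {M : ℕ} {θ : ℝ} {Gc : ℕ → ℝ → ℝ} (hG : Cells1 M θ Gc)
    {χ : ℝ → ℝ} {D δ : ℝ} (hW : Win2 χ D) (hδ : 0 < δ) (n : ℕ) (β : ℝ) :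
    Tendsto (fun T => EC v T (fun t => Vn n (δ - 2 * PP1 χ δ D T t) * (CC β M Gc T t * conj (CC β M Gc T t)))) atTop
      (𝓝 (((∫ x, v x : ℝ) : ℂ) * Jn n M δ β (kaps (Gd χ δ) Gc))) := by
  set cf1 : ℕ → ℂ := fun j => (n.choose j : ℂ) * (1 + (π : ℂ) * Complex.I * ((δ : ℂ) - 1 / 2) / (n : ℂ)) ^ (n - j) *
      (-(2 * ((π : ℂ) * Complex.I / (n : ℂ)))) ^ j with hcf1
  set ph : ℕ → ℂ := fun k => Complex.exp (-((β * k : ℝ) : ℂ) * Complex.I) with hph
  set S : Finset (ℕ × ℕ × ℕ) := Finset.range (n + 1) ×ˢ (Finset.range M ×ˢ Finset.range M) with hS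
  have hlim : Tendsto (fun T => ∑ x ∈ S, (cf1 x.1 * (ph x.2.1 * conj (ph x.2.2))) *
      EC v T (fun t => PP1 χ δ D T t ^ x.1 * (hh Gc T t x.2.1 * conj (hh Gc T t x.2.2)))) atTop
      (𝓝 (∑ x ∈ S, (cf1 x.1 * (ph x.2.1 * conj (ph x.2.2))) *
        (((∫ y, v y) * LamP (kaps (Gd χ δ) Gc) x.1 x.2.1 x.2.2 : ℝ) : ℂ))) := by
    refine tendsto_finsetSum _ fun x hx => ?_
    rw [hS, Finset.mem_product, Finset.mem_product, Finset.mem_range, Finset.mem_range, Finset.mem_range] at hx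
    exact (mean_P hv hG hW hδ x.1 x.2.1 x.2.2 hx.2.1 hx.2.2).const_mul _
  have hval : (∑ x ∈ S, (cf1 x.1 * (ph x.2.1 * conj (ph x.2.2))) *
        (((∫ y, v y) * LamP (kaps (Gd χ δ) Gc) x.1 x.2.1 x.2.2 : ℝ) : ℂ)) =
      ((∫ x, v x : ℝ) : ℂ) * Jn n M δ β (kaps (Gd χ δ) Gc) := by
    rw [hS, Finset.sum_product, Finset.sum_comm]
    unfold Jn
    rw [Finset.mul_sum, Finset.sum_product]
    refine Finset.sum_congr rfl fun k _ => ?_
    rw [Finset.mul_sum]
    refine Finset.sum_congr rfl fun m _ => ?_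
    by_cases hkm : k ≤ m
    · rw [if_pos hkm, Vps_coeff, Finset.mul_sum, Finset.mul_sum]
      refine Finset.sum_congr rfl fun j _ => ?_
      simp only
      unfold LamP
      rw [if_pos hkm, ← phase β hkm, Complex.ofReal_mul]
      simp only [hcf1, hph]
      ring
    · rw [if_neg hkm, mul_zero]
      refine Finset.sum_eq_zero fun j _ => ?_
      unfold LamP
      simp only
      rw [if_neg hkm]
      simp
  rw [hval] at hlim
  refine (hlim.congr' ?_)
  filter_upwards [eventually_gt_atTop (0 : ℝ)] with T hT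
  rw [← Vb_EC_sum hv hT S (fun x => cf1 x.1 * (ph x.2.1 * conj (ph x.2.2)))
    (fun x t => PP1 χ δ D T t ^ x.1 * (hh Gc T t x.2.1 * conj (hh Gc T t x.2.2))) (fun x _ =>
      ((continuous_PP1 χ δ D T).pow _).mul ((continuous_hh Gc T _).mul (Complex.continuous_conj.comp (continuous_hh Gc T _))))]
  congr 1
  funext t
  rw [Vn_expand, hS, Finset.sum_product]
  unfold CC
  rw [map_sum, Finset.sum_mul_sum, Finset.sum_mul]
  refine Finset.sum_congr rfl fun j _ => ?_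
  rw [Finset.mul_sum, Finset.sum_product]
  refine Finset.sum_congr rfl fun k _ => ?_
  rw [Finset.mul_sum]
  refine Finset.sum_congr rfl fun m _ => ?_
  rw [map_mul]
  simp only [hcf1, hph]
  ring

/-- the mean value of `h_k conj h_m` -/
lemma mean_hh {v : ℝ → ℝ} (hv : Wgt v) {M : ℕ} {θ : ℝ} {Gc : ℕ → ℝ → ℝ} (hG : Cells1 M θ Gc) (k m : ℕ)
    (hk : k < M) (hm : m < M) :
    Tendsto (fun T => EC v T (fun t => hh Gc T t k * conj (hh Gc T t m))) atTop
      (𝓝 (((∫ x, v x) * (if k = m then 1 else 0) : ℝ) : ℂ)) := by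
  have hM : (0 : ℝ) < M := by
    have h2 : 0 < M := by omega
    exact_mod_cast h2
  have h1 := transferPow hv hG (le_refl (1 : ℝ)) (H := fun _ => 0) continuous_const (B := 0) (fun x => by simp) 0
    (P := aL (-1) k * aR (-1) m) (N := k + 0) (N' := 0 + m) ((deg_aL (-1) k).mul (deg_aR (-1) m)) (by
      rw [zero_add, div_lt_one hM]
      have h3 : (m : ℝ) ≤ M := by exact_mod_cast hm.le
      have h4 : θ * m ≤ θ * M := mul_le_mul_of_nonneg_left h3 hG.θ_pos.le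
      have h5 : θ * M < 1 * M := mul_lt_mul_of_pos_right hG.θ_lt hM
      linarith)
  simp only [Function.iterate_zero, id_eq] at h1
  rw [EG_aLaR (by norm_num) m hk] at h1
  refine h1.congr fun T => ?_
  congr 1
  funext t
  rw [map_mul, ← hh_eq, ← hh_conj]
  ring

lemma norm_sq_ph (β : ℝ) (k : ℕ) : Complex.exp (-((β * k : ℝ) : ℂ) * Complex.I) *
    conj (Complex.exp (-((β * k : ℝ) : ℂ) * Complex.I)) = 1 := by
  rw [phase β (le_refl k), Nat.sub_self]
  simp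

theorem mean_C {v : ℝ → ℝ} (hv : Wgt v) {M : ℕ} {θ : ℝ} {Gc : ℕ → ℝ → ℝ} (hG : Cells1 M θ Gc) (β : ℝ) :
    Tendsto (fun T => EE v T (fun t => ‖CC β M Gc T t‖ ^ 2)) atTop (𝓝 ((∫ x, v x) * M)) := by
  set ph : ℕ → ℂ := fun k => Complex.exp (-((β * k : ℝ) : ℂ) * Complex.I) with hph
  set S : Finset (ℕ × ℕ) := Finset.range M ×ˢ Finset.range M with hS
  have hlim : Tendsto (fun T => ∑ x ∈ S, (ph x.1 * conj (ph x.2)) *
      EC v T (fun t => hh Gc T t x.1 * conj (hh Gc T t x.2))) atTop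
      (𝓝 (∑ x ∈ S, (ph x.1 * conj (ph x.2)) * (((∫ y, v y) * (if x.1 = x.2 then 1 else 0) : ℝ) : ℂ))) := by
    refine tendsto_finsetSum _ fun x hx => ?_
    rw [hS, Finset.mem_product, Finset.mem_range, Finset.mem_range] at hx
    exact (mean_hh hv hG x.1 x.2 hx.1 hx.2).const_mul _
  have hval : (∑ x ∈ S, (ph x.1 * conj (ph x.2)) * (((∫ y, v y) * (if x.1 = x.2 then 1 else 0) : ℝ) : ℂ)) =
      (((∫ x, v x) * M : ℝ) : ℂ) := by
    rw [hS, Finset.sum_product]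
    have h1 : ∀ k ∈ Finset.range M, (∑ m ∈ Finset.range M, (ph k * conj (ph m)) *
        (((∫ y, v y) * (if k = m then 1 else 0) : ℝ) : ℂ)) = ((∫ x, v x : ℝ) : ℂ) := by
      intro k hk
      rw [Finset.sum_eq_single k]
      · rw [if_pos rfl, mul_one, hph]
        simp only
        rw [norm_sq_ph, one_mul]
      · intro m _ hmk
        rw [if_neg (Ne.symm hmk), mul_zero, Complex.ofReal_zero, mul_zero]
      · intro h
        exact absurd hk h
    simp only at h1 ⊢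
    rw [Finset.sum_congr rfl h1, Finset.sum_const, Finset.card_range, nsmul_eq_mul]
    push_cast
    ring
  rw [hval] at hlim
  have hlim2 : Tendsto (fun T => ((EE v T (fun t => ‖CC β M Gc T t‖ ^ 2) : ℝ) : ℂ)) atTop
      (𝓝 (((∫ x, v x) * M : ℝ) : ℂ)) := by
    refine hlim.congr' ?_
    filter_upwards [eventually_gt_atTop (0 : ℝ)] with T hT
    rw [← Vb_EC_sum hv hT S (fun x => ph x.1 * conj (ph x.2))
      (fun x t => hh Gc T t x.1 * conj (hh Gc T t x.2)) (fun x _ =>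
        (continuous_hh Gc T _).mul (Complex.continuous_conj.comp (continuous_hh Gc T _))), ← EC_ofReal]
    congr 1
    funext t
    have e : ((‖CC β M Gc T t‖ ^ 2 : ℝ) : ℂ) = CC β M Gc T t * conj (CC β M Gc T t) := by
      rw [Complex.mul_conj, Complex.normSq_eq_norm_sq]
    rw [e, hS, Finset.sum_product]
    unfold CC
    rw [map_sum, Finset.sum_mul_sum]
    refine Finset.sum_congr rfl fun k _ => Finset.sum_congr rfl fun m _ => ?_
    rw [map_mul]
    simp only [hph]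
    ring
  have h3 := (Complex.continuous_re.tendsto _).comp hlim2
  rw [Complex.ofReal_re] at h3
  exact h3

end Pool.Agent.H68.HF
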