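import Mathlib
import Pool.Agent.H68.HF.Gb

/-!
# Row HFGc (100 lines): the Gaussian mean of `C · conj C` after several `DK` (helper68)

`Cp c M = ∑_{n<M} aL c n`, `Cq c M = ∑_{n<M} aR c n`.
`DKL M L P`: apply `DK M κ` for all `κ` in the list `L`.
`DKL_eq`: `DKL M L (Cp c M * Cq c M) = ∑_{a<M} ∑_{n<M} aL c a * cv c ((L.map fun κ => C c * Kp M κ).prod) n`.
PROOF. Induction on the list `L` (`List.foldr`); empty list: `Finset.sum_mul_sum`, `cv_one`; step: `DK_sum` twice, `DK_aL_mul`, `DK_cv`.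
`EG_cv`: for `c ^ 2 = 1`, `n < M`: `EG (sM M) (Cp c M * cv c F n) = ∑_{i < n+1} F.coeff i`.
PROOF. `Finset.sum_mul`, `map_sum`, `cv`, `Finset.mul_sum`, `mul_smul_comm`, `EG_aLaR`:
`= ∑_{(i,m)} F_i * ∑_{a<M} (if a = m then 1 else 0) = ∑_{(i,m)} F_i` (`m ≤ n < M`), then `Finset.Nat.sum_antidiagonal_eq_sum_range_succ_mk`.
`EG_DKL`: `EG (sM M) (DKL M L (Cp c M * Cq c M)) = ∑_{i<M} (M - i) * F.coeff i`, `F = (L.map fun κ => C c * Kp M κ).prod`.
PROOF. By `DKL_eq` and `EG_cv` the left side is `∑_{n<M} ∑_{i<n+1} F.coeff i`. Exchange: `∑_{n<M} ∑_{i<n+1} f i = ∑_{i<M} (M - i) * f i`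
by induction on `M` (`Finset.sum_range_succ`): the step adds `∑_{i<M+1} f i` on the left and, on the right,
`∑_{i<M} f i + f M` (`push_cast`, `ring`).
-/

open MvPolynomial

namespace Pool.Agent.H14.GP

noncomputable def Cp (c : ℝ) (M : ℕ) : PP := ∑ n ∈ Finset.range M, aL c n
noncomputable def Cq (c : ℝ) (M : ℕ) : PP := ∑ n ∈ Finset.range M, aR c n

/-- apply `DK M κ` for all `κ` in the list -/
noncomputable def DKL (M : ℕ) (L : List (ℕ → ℝ)) (P : PP) : PP := L.foldr (fun κ Q => DK M κ Q) P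

theorem DKL_eq (c : ℝ) (M : ℕ) (L : List (ℕ → ℝ)) (hL : ∀ κ ∈ L, κ 0 = 0) :
    DKL M L (Cp c M * Cq c M) =
      ∑ a ∈ Finset.range M, ∑ n ∈ Finset.range M,
        aL c a * cv c ((L.map fun κ => Polynomial.C c * Kp M κ).prod) n := by
  induction L with
  | nil =>
    rw [List.map_nil, List.prod_nil]
    unfold DKL Cp Cq
    rw [List.foldr_nil, Finset.sum_mul_sum]
    refine Finset.sum_congr rfl fun a _ => Finset.sum_congr rfl fun n _ => ?_
    rw [cv_one]
  | cons κ L ih =>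
    have h0 : κ 0 = 0 := hL κ List.mem_cons_self
    have ih' := ih fun κ' h' => hL κ' (List.mem_cons_of_mem κ h')
    have h1 : DKL M (κ :: L) (Cp c M * Cq c M) = DK M κ (DKL M L (Cp c M * Cq c M)) := by
      unfold DKL
      rw [List.foldr_cons]
    rw [h1, ih', DK_sum, List.map_cons, List.prod_cons]
    refine Finset.sum_congr rfl fun a _ => ?_
    rw [DK_sum]
    refine Finset.sum_congr rfl fun n _ => ?_
    rw [DK_aL_mul, DK_cv M h0]

theorem EG_cv {c : ℝ} (hc : c ^ 2 = 1) {M n : ℕ} (hn : n < M) (F : Polynomial ℝ) :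
    EG (sM M) (Cp c M * cv c F n) = ∑ i ∈ Finset.range (n + 1), F.coeff i := by
  have h1 : ∀ a ∈ Finset.range M, ∀ x : ℕ × ℕ,
      EG (sM M) (aL c a * (F.coeff x.1 • aR c x.2)) = F.coeff x.1 * (if a = x.2 then 1 else 0) := by
    intro a ha x
    rw [mul_smul_comm, map_smul, smul_eq_mul, EG_aLaR hc x.2 (Finset.mem_range.mp ha)]
  unfold Cp cv
  rw [Finset.sum_mul_sum, map_sum]
  have h2 : ∀ a ∈ Finset.range M,
      EG (sM M) (∑ x ∈ Finset.HasAntidiagonal.antidiagonal n, aL c a * (F.coeff x.1 • aR c x.2)) =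
        ∑ x ∈ Finset.HasAntidiagonal.antidiagonal n, F.coeff x.1 * (if a = x.2 then 1 else 0) := by
    intro a ha
    rw [map_sum]
    exact Finset.sum_congr rfl fun x _ => h1 a ha x
  rw [Finset.sum_congr rfl h2, Finset.sum_comm]
  have h3 : ∀ x ∈ Finset.HasAntidiagonal.antidiagonal n,
      ∑ a ∈ Finset.range M, F.coeff x.1 * (if a = x.2 then (1 : ℝ) else 0) = F.coeff x.1 := by
    intro x hx
    have hx2 : x.2 ∈ Finset.range M := by
      have := Finset.HasAntidiagonal.mem_antidiagonal.mp hx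
      rw [Finset.mem_range]
      omega
    rw [← Finset.mul_sum, Finset.sum_ite_eq', if_pos hx2, mul_one]
  rw [Finset.sum_congr rfl h3]
  exact Finset.Nat.sum_antidiagonal_eq_sum_range_succ_mk (fun x : ℕ × ℕ => F.coeff x.1) n

lemma sum_tri (f : ℕ → ℝ) (M : ℕ) :
    ∑ n ∈ Finset.range M, ∑ i ∈ Finset.range (n + 1), f i = ∑ i ∈ Finset.range M, ((M : ℝ) - i) * f i := by
  induction M with
  | zero => simp
  | succ M ih =>
    rw [Finset.sum_range_succ, ih, Finset.sum_range_succ, Finset.sum_range_succ]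
    have h : ∑ i ∈ Finset.range M, (((M + 1 : ℕ) : ℝ) - i) * f i =
        ∑ i ∈ Finset.range M, ((M : ℝ) - i) * f i + ∑ i ∈ Finset.range M, f i := by
      rw [← Finset.sum_add_distrib]
      refine Finset.sum_congr rfl fun i _ => ?_
      push_cast
      ring
    rw [h]
    push_cast
    ring

theorem EG_DKL {c : ℝ} (hc : c ^ 2 = 1) (M : ℕ) (L : List (ℕ → ℝ)) (hL : ∀ κ ∈ L, κ 0 = 0) :
    EG (sM M) (DKL M L (Cp c M * Cq c M)) =
      ∑ i ∈ Finset.range M, ((M : ℝ) - i) * ((L.map fun κ => Polynomial.C c * Kp M κ).prod).coeff i := by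
  rw [DKL_eq c M L hL, Finset.sum_comm, map_sum, ← sum_tri]
  refine Finset.sum_congr rfl fun n hn => ?_
  rw [← EG_cv hc (Finset.mem_range.mp hn), ← Finset.sum_mul]
  rfl

end Pool.Agent.H14.GP
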